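import Pool.Agent.helper11.VQ.Spec3c

set_option autoImplicit false

open scoped MatrixGroups ContDiff Topology UpperHalfPlane ComplexConjugate ENNReal
open UpperHalfPlane MeasureTheory Filter Set

namespace Pool.Agent.VQ

open Pool.Agent.RS
open Pool.Agent.RPQ (PJ PN upd)

theorem RSB_PJ (J : ℕ) : IsProbabilityMeasure (PJ J) := by
  change IsProbabilityMeasure (Measure.pi fun _ : Fin J => Pool.Agent.RPQ.UN)
  infer_instance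

theorem RSB_lev (k J : ℕ) (ζ : ℕ × ℕ → ℝ) (ξ : Fin J → ℝ) :
    (fun j : Fin J => upd k J (ζ, ξ) (k, (j : ℕ))) = ξ := by
  funext j
  unfold Pool.Agent.RPQ.upd
  rw [dif_pos ⟨rfl, j.2⟩]

theorem RSB_pre {T : Type} (k J : ℕ) (r : (ℕ × ℕ → ℝ) → T) (hr : ∀ (ζ : ℕ × ℕ → ℝ) (ξ : Fin J → ℝ), r (upd k J (ζ, ξ)) = r ζ)
    (b : T) (A : Set (Fin J → ℝ)) :
    upd k J ⁻¹' (r ⁻¹' {b} ∩ {ζ | (fun j : Fin J => ζ (k, (j : ℕ))) ∈ A}) = (r ⁻¹' {b}) ×ˢ A := by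
  ext ⟨ζ, ξ⟩
  simp only [mem_preimage, mem_inter_iff, mem_singleton_iff, mem_setOf_eq, mem_prod]
  rw [hr ζ ξ, RSB_lev k J ζ ξ]

theorem RSB_one {T : Type} (hRSM : Pool.Agent.RPQ.RSM_stmt) (k J : ℕ) (r : (ℕ × ℕ → ℝ) → T)
    (hm : ∀ b, MeasurableSet (r ⁻¹' {b}))
    (hr : ∀ (ζ : ℕ × ℕ → ℝ) (ξ : Fin J → ℝ), r (upd k J (ζ, ξ)) = r ζ) (b : T) (A : Set (Fin J → ℝ)) (hA : MeasurableSet A) :
    PN (r ⁻¹' {b} ∩ {ζ | (fun j : Fin J => ζ (k, (j : ℕ))) ∈ A}) = PN (r ⁻¹' {b}) * PJ J A := by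
  haveI := RSB_PJ J
  have hmeas : Measurable (fun ζ : ℕ × ℕ → ℝ => (fun j : Fin J => ζ (k, (j : ℕ)))) :=
    measurable_pi_lambda _ fun j => measurable_pi_apply _
  have hX : MeasurableSet (r ⁻¹' {b} ∩ {ζ | (fun j : Fin J => ζ (k, (j : ℕ))) ∈ A}) :=
    (hm b).inter (hmeas hA)
  rw [← (hRSM.2.2 k J).measure_preimage hX.nullMeasurableSet, RSB_pre k J r hr b A, Measure.prod_prod]

/-- Row RSB. -/
theorem RSB_proof (hRSM : Pool.Agent.RPQ.RSM_stmt) : RSB_stmt := by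
  intro k J T _ r c E hm hr hE
  haveI : IsProbabilityMeasure PN := hRSM.1
  set X : T → Set (ℕ × ℕ → ℝ) := fun b => r ⁻¹' {b} ∩ {ζ | (fun j : Fin J => ζ (k, (j : ℕ))) ∈ toMeasurable (PJ J) (E b)} with hXdef
  have hsub : {ζ : ℕ × ℕ → ℝ | (fun j : Fin J => ζ (k, (j : ℕ))) ∈ E (r ζ)} ⊆ ⋃ b, X b := by
    intro ζ hζ
    exact mem_iUnion.2 ⟨r ζ, rfl, subset_toMeasurable _ _ hζ⟩
  have hXle : ∀ b, PN (X b) ≤ PN (r ⁻¹' {b}) * c := by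
    intro b
    rw [hXdef]
    rw [RSB_one hRSM k J r hm hr b _ (measurableSet_toMeasurable _ _), measure_toMeasurable]
    exact mul_le_mul_right (hE b) _
  have hsum : ∑' b, PN (r ⁻¹' {b}) = 1 := by
    rw [← measure_iUnion (fun a b hab => Disjoint.preimage r (disjoint_singleton.2 hab)) hm]
    have : (⋃ b, r ⁻¹' {b}) = univ := by
      ext ζ; simp
    rw [this, measure_univ]
  calc PN {ζ : ℕ × ℕ → ℝ | (fun j : Fin J => ζ (k, (j : ℕ))) ∈ E (r ζ)} ≤ PN (⋃ b, X b) := measure_mono hsub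
    _ ≤ ∑' b, PN (X b) := measure_iUnion_le _
    _ ≤ ∑' b, PN (r ⁻¹' {b}) * c := ENNReal.tsum_le_tsum hXle
    _ = (∑' b, PN (r ⁻¹' {b})) * c := ENNReal.tsum_mul_right
    _ = c := by rw [hsum, one_mul]

end Pool.Agent.VQ
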