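import Pool.Agent.helper80.VQ.SpecFL

/-!
# Row IDG of project VQ (MP_07c750_an): existence of the dynamics of a general potential
-/

set_option autoImplicit false

open scoped MatrixGroups ContDiff Topology UpperHalfPlane ComplexConjugate ENNReal
open UpperHalfPlane MeasureTheory Filter Set

namespace Pool.Agent.VQ

open Pool.Agent.RS
open Pool.Agent.VQE (nm)

noncomputable section

/-- the energies `|E| ≤ e` and the frames -/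
abbrev IDG_L (e : ℝ) : Type := {p : ℝ × SL(2, ℝ) // |p.1| ≤ e}

theorem IDG_fc (e : ℝ) : FirstCountableTopology (IDG_L e) := by
  have h0 : FirstCountableTopology (Matrix (Fin 2) (Fin 2) ℝ) := inferInstanceAs (FirstCountableTopology (Fin 2 → Fin 2 → ℝ))
  have h1 : FirstCountableTopology SL(2, ℝ) :=
    TopologicalSpace.firstCountableTopology_induced SL(2, ℝ) (Matrix (Fin 2) (Fin 2) ℝ) (fun g => g.1)
  exact Topology.IsEmbedding.subtypeVal.firstCountableTopology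

/-- continuity on `{|E| ≤ e}` of a function which comes from `IDG_L e × ℝ` -/
theorem IDG_on {X : Type} [TopologicalSpace X] (e : ℝ) (f : IDG_L e → ℝ → X) (hf : Continuous (fun q : IDG_L e × ℝ => f q.1 q.2))
    (G : ℝ → ℝ → SL(2, ℝ) → X) (hG : ∀ (E t : ℝ) (g : SL(2, ℝ)) (h : |E| ≤ e), G E t g = f ⟨(E, g), h⟩ t) :
    ContinuousOn (fun p : ℝ × ℝ × SL(2, ℝ) => G p.1 p.2.1 p.2.2) {p | |p.1| ≤ e} := by
  rw [continuousOn_iff_continuous_domRestrict]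
  have h1 : Continuous (fun p : {p : ℝ × ℝ × SL(2, ℝ) | |p.1| ≤ e} => ((⟨(p.1.1, p.1.2.2), p.2⟩ : IDG_L e), p.1.2.1)) := by
    refine Continuous.prodMk (Continuous.subtype_mk ?_ _) ?_
    · exact (continuous_fst.comp continuous_subtype_val).prodMk (continuous_snd.comp (continuous_snd.comp continuous_subtype_val))
    · exact continuous_fst.comp (continuous_snd.comp continuous_subtype_val)
  have h2 := hf.comp h1
  refine h2.congr fun p => ?_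
  exact (hG p.1.1 p.1.2.1 p.1.2.2 p.2).symm

theorem IDG_tr (P Y : Matrix (Fin 2) (Fin 2) ℂ) :
    Matrix.trace (P * Y⁻¹) = (P 0 0 * Y 1 1 - P 0 1 * Y 1 0 - P 1 0 * Y 0 1 + P 1 1 * Y 0 0) / (Y 0 0 * Y 1 1 - Y 0 1 * Y 1 0) := by
  rw [Matrix.inv_def, Matrix.adjugate_fin_two, Matrix.det_fin_two, Matrix.trace_fin_two, Ring.inverse_eq_inv']
  simp only [Matrix.mul_apply, Fin.sum_univ_two, Matrix.smul_apply, Matrix.of_apply, Matrix.cons_val', Matrix.cons_val_zero, Matrix.cons_val_one,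
    Matrix.cons_val_fin_one, smul_eq_mul]
  rw [div_eq_mul_inv]
  ring



theorem IDG_c1 (e : ℝ) (fl : ℝ → ℝ → SL(2, ℝ) → SL(2, ℝ)) (hflc : Continuous (fun p : ℝ × ℝ × SL(2, ℝ) => fl p.1 p.2.1 p.2.2)) :
    Continuous (fun q : IDG_L e × ℝ => fl q.1.1.1 q.2 q.1.1.2) := by
  have h1 : Continuous (fun q : IDG_L e × ℝ => ((q.1.1.1, q.2, q.1.1.2) : ℝ × ℝ × SL(2, ℝ))) :=
    ((continuous_fst.comp (continuous_subtype_val.comp continuous_fst)).prodMk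
      (continuous_snd.prodMk (continuous_snd.comp (continuous_subtype_val.comp continuous_fst))))
  exact hflc.comp h1

theorem IDG_c2 (e : ℝ) (fl : ℝ → ℝ → SL(2, ℝ) → SL(2, ℝ)) (hflc : Continuous (fun p : ℝ × ℝ × SL(2, ℝ) => fl p.1 p.2.1 p.2.2)) :
    Continuous (fun q : IDG_L e × ℝ => ((q.1.1.1, fl q.1.1.1 q.2 q.1.1.2) : ℝ × SL(2, ℝ))) :=
  (continuous_fst.comp (continuous_subtype_val.comp continuous_fst)).prodMk (IDG_c1 e fl hflc)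


theorem IDG_c3 (e : ℝ) (U : ℍ → ℝ) (fl : ℝ → ℝ → SL(2, ℝ) → SL(2, ℝ)) (hflc : Continuous (fun p : ℝ × ℝ × SL(2, ℝ) => fl p.1 p.2.1 p.2.2))
    (hkap : ContinuousOn (fun p : ℝ × SL(2, ℝ) => kap U p.1 p.2) {p | |p.1| ≤ e}) :
    Continuous (fun q : IDG_L e × ℝ => kap U q.1.1.1 (fl q.1.1.1 q.2 q.1.1.2)) := by
  have h := hkap.comp_continuous (IDG_c2 e fl hflc) (fun q => q.1.2)
  exact h


theorem IDG_c4 (e : ℝ) (U : ℍ → ℝ) (fl : ℝ → ℝ → SL(2, ℝ) → SL(2, ℝ)) (hflc : Continuous (fun p : ℝ × ℝ × SL(2, ℝ) => fl p.1 p.2.1 p.2.2))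
    (hrho : Continuous (fun p : ℝ × SL(2, ℝ) => rho U p.1 p.2)) :
    Continuous (fun q : IDG_L e × ℝ => rho U q.1.1.1 (fl q.1.1.1 q.2 q.1.1.2)) := by
  have h := hrho.comp (IDG_c2 e fl hflc)
  exact h


theorem IDG_c5 (e : ℝ) (U : ℍ → ℝ) (fl : ℝ → ℝ → SL(2, ℝ) → SL(2, ℝ)) (hflc : Continuous (fun p : ℝ × ℝ × SL(2, ℝ) => fl p.1 p.2.1 p.2.2))
    (hhess : ∀ i j, Continuous fun g => hess U g i j)
    (hrho : Continuous (fun p : ℝ × SL(2, ℝ) => rho U p.1 p.2)) (i j : Fin 2) :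
    Continuous (fun q : IDG_L e × ℝ => KK U q.1.1.1 (fl q.1.1.1 q.2 q.1.1.2) i j) := by
  unfold KK
  refine Complex.continuous_ofReal.comp ?_
  have h1 : Continuous (fun q : IDG_L e × ℝ => hess U (fl q.1.1.1 q.2 q.1.1.2) i j / 2) := ((hhess i j).comp (IDG_c1 e fl hflc)).div_const 2
  refine h1.add ?_
  by_cases hij : i = 1 ∧ j = 1
  · simp only [if_pos hij]
    exact (IDG_c4 e U fl hflc hrho).pow 2
  · simp only [if_neg hij]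
    exact continuous_const


theorem IDG_c6 (e : ℝ) (Y P : IDG_L e → ℝ → Matrix (Fin 2) (Fin 2) ℂ) (hcY : ∀ i j, Continuous (fun q : IDG_L e × ℝ => Y q.1 q.2 i j))
    (hcP : ∀ i j, Continuous (fun q : IDG_L e × ℝ => P q.1 q.2 i j)) (hdet : ∀ p t, (Y p t).det ≠ 0) :
    Continuous (fun q : IDG_L e × ℝ => -(1 / 2) * Matrix.trace (P q.1 q.2 * (Y q.1 q.2)⁻¹)) := by
  refine continuous_const.mul ?_
  have he : (fun q : IDG_L e × ℝ => Matrix.trace (P q.1 q.2 * (Y q.1 q.2)⁻¹)) = fun q : IDG_L e × ℝ =>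
      (P q.1 q.2 0 0 * Y q.1 q.2 1 1 - P q.1 q.2 0 1 * Y q.1 q.2 1 0 - P q.1 q.2 1 0 * Y q.1 q.2 0 1 + P q.1 q.2 1 1 * Y q.1 q.2 0 0) /
        (Y q.1 q.2 0 0 * Y q.1 q.2 1 1 - Y q.1 q.2 0 1 * Y q.1 q.2 1 0) := by
    funext q
    exact IDG_tr _ _
  rw [he]
  have hn : Continuous (fun q : IDG_L e × ℝ => P q.1 q.2 0 0 * Y q.1 q.2 1 1 - P q.1 q.2 0 1 * Y q.1 q.2 1 0 - P q.1 q.2 1 0 * Y q.1 q.2 0 1 + P q.1 q.2 1 1 * Y q.1 q.2 0 0) :=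
    (((((hcP 0 0).mul (hcY 1 1)).sub ((hcP 0 1).mul (hcY 1 0))).sub ((hcP 1 0).mul (hcY 0 1))).add ((hcP 1 1).mul (hcY 0 0)))
  have hd : Continuous (fun q : IDG_L e × ℝ => Y q.1 q.2 0 0 * Y q.1 q.2 1 1 - Y q.1 q.2 0 1 * Y q.1 q.2 1 0) :=
    ((hcY 0 0).mul (hcY 1 1)).sub ((hcY 0 1).mul (hcY 1 0))
  refine hn.div hd ?_
  intro q
  rw [← Matrix.det_fin_two]
  exact hdet q.1 q.2


theorem IDG_c7 (Γ : Subgroup SL(2, ℝ)) (e : ℝ) (B : ℕ → ℝ) (U : ℍ → ℝ) (hP : Pg Γ e B U) (hVUG : VUG_stmt) (fl : ℝ → ℝ → SL(2, ℝ) → SL(2, ℝ))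
    (hflc : Continuous (fun p : ℝ × ℝ × SL(2, ℝ) => fl p.1 p.2.1 p.2.2)) :
    Continuous (fun q : IDG_L e × ℝ => (rho U q.1.1.1 (fl q.1.1.1 q.2 q.1.1.2) ^ 2 + U (fl q.1.1.1 q.2 q.1.1.2 • I)) / 2) := by
  obtain ⟨hV1, hV2, ⟨-, -, hhess, hrho, hkap⟩, -, -⟩ := hVUG Γ e B U hP
  have hrhoL := IDG_c4 e U fl hflc hrho
  have hEL : Continuous (fun q : IDG_L e × ℝ => q.1.1.1) := continuous_fst.comp (continuous_subtype_val.comp continuous_fst)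
  have he : (fun q : IDG_L e × ℝ => (rho U q.1.1.1 (fl q.1.1.1 q.2 q.1.1.2) ^ 2 + U (fl q.1.1.1 q.2 q.1.1.2 • I)) / 2) = fun q : IDG_L e × ℝ =>
      (rho U q.1.1.1 (fl q.1.1.1 q.2 q.1.1.2) ^ 2 + (rho U q.1.1.1 (fl q.1.1.1 q.2 q.1.1.2) ^ 2 - 2 * q.1.1.1)) / 2 := by
    funext q
    have h1 := (hV2 q.1.1.1 (fl q.1.1.1 q.2 q.1.1.2) q.1.2).2.1
    rw [h1]
    ring
  rw [he]
  exact ((hrhoL.pow 2).add ((hrhoL.pow 2).sub (continuous_const.mul hEL))).div_const 2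

/-- the solutions on `IDG_L e` -/
def IDG_D (e : ℝ) (U : ℍ → ℝ) (fl : ℝ → ℝ → SL(2, ℝ) → SL(2, ℝ)) : Prop :=
  ∃ (Y P : IDG_L e → ℝ → Matrix (Fin 2) (Fin 2) ℂ) (S : IDG_L e → ℝ → ℝ) (a : IDG_L e → ℝ → ℂ),
    (∀ p, Y p 0 = 1 ∧ P p 0 = Complex.I • 1 ∧ S p 0 = 0 ∧ a p 0 = 1) ∧
    (∀ p t i j, HasDerivAt (fun s => Y p s i j) ((P p t + ((kap U p.1.1 (fl p.1.1 t p.1.2) : ℝ) : ℂ) • (JJ * Y p t)) i j) t) ∧
    (∀ p t i j, HasDerivAt (fun s => P p s i j) ((KK U p.1.1 (fl p.1.1 t p.1.2) * Y p t + ((kap U p.1.1 (fl p.1.1 t p.1.2) : ℝ) : ℂ) • (JJ * P p t)) i j) t) ∧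
    (∀ p t, HasDerivAt (S p) ((rho U p.1.1 (fl p.1.1 t p.1.2) ^ 2 + U (fl p.1.1 t p.1.2 • I)) / 2) t) ∧
    (∀ p t, HasDerivAt (a p) (-(1 / 2) * Matrix.trace (P p t * (Y p t)⁻¹) * a p t) t) ∧
    (∀ i j, Continuous (fun q : IDG_L e × ℝ => Y q.1 q.2 i j)) ∧ (∀ i j, Continuous (fun q : IDG_L e × ℝ => P q.1 q.2 i j)) ∧
    Continuous (fun q : IDG_L e × ℝ => S q.1 q.2) ∧ Continuous (fun q : IDG_L e × ℝ => a q.1 q.2)


theorem IDG_data (hYPE : YPE_stmt) (hDTN : DTN_stmt) (hSAE : SAE_stmt) (hVUG : VUG_stmt) (Γ : Subgroup SL(2, ℝ)) (e : ℝ) (B : ℕ → ℝ) (U : ℍ → ℝ)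
    (hP : Pg Γ e B U) (fl : ℝ → ℝ → SL(2, ℝ) → SL(2, ℝ)) (hflc : Continuous (fun p : ℝ × ℝ × SL(2, ℝ) => fl p.1 p.2.1 p.2.2)) :
    IDG_D e U fl := by
  have := IDG_fc e
  obtain ⟨hV1, hV2, ⟨-, -, hhess, hrho, hkap⟩, -, -⟩ := hVUG Γ e B U hP
  obtain ⟨Y, P, h0, hdY, hdP, hcY, hcP⟩ := hYPE (IDG_L e) (fun p t => kap U p.1.1 (fl p.1.1 t p.1.2)) (fun p t => KK U p.1.1 (fl p.1.1 t p.1.2))
    (IDG_c3 e U fl hflc hkap) (IDG_c5 e U fl hflc hhess hrho)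
  have hdet : ∀ p t, (Y p t).det ≠ 0 := by
    intro p
    refine hDTN (fun t => kap U p.1.1 (fl p.1.1 t p.1.2)) (fun t => KK U p.1.1 (fl p.1.1 t p.1.2)) (Y p) (P p) ?_ ?_ (h0 p).1 (h0 p).2 (hdY p) (hdP p)
    · intro t
      have hs := (hV1 (fl p.1.1 t p.1.2)).2.2.2.2.2
      unfold KK
      rw [hs]
      simp
    · intro t i j
      unfold KK
      exact Complex.ofReal_im _
  obtain ⟨⟨S, hS0, hSd, hSc⟩, a, ha0, had, hac⟩ := hSAE (IDG_L e)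
    (fun p t => (rho U p.1.1 (fl p.1.1 t p.1.2) ^ 2 + U (fl p.1.1 t p.1.2 • I)) / 2)
    (fun p t => -(1 / 2) * Matrix.trace (P p t * (Y p t)⁻¹)) (IDG_c7 Γ e B U hP hVUG fl hflc) (IDG_c6 e Y P hcY hcP hdet)
  exact ⟨Y, P, S, a, fun p => ⟨(h0 p).1, (h0 p).2, hS0 p, ha0 p⟩, hdY, hdP, hSd, had, hcY, hcP, hSc, hac⟩

open Classical in
/-- the dynamics -/
def IDG_Dyn (e : ℝ) (U : ℍ → ℝ) (fl : ℝ → ℝ → SL(2, ℝ) → SL(2, ℝ)) (Y P : IDG_L e → ℝ → Matrix (Fin 2) (Fin 2) ℂ) (S : IDG_L e → ℝ → ℝ)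
    (a : IDG_L e → ℝ → ℂ) : Dyn where
  U := U
  fl := fun E t g => if |E| ≤ e then fl E t g else g
  Y := fun E t g => if h : |E| ≤ e then Y ⟨(E, g), h⟩ t else 1
  P := fun E t g => if h : |E| ≤ e then P ⟨(E, g), h⟩ t else Complex.I • 1
  S := fun E t g => if h : |E| ≤ e then S ⟨(E, g), h⟩ t else 0
  a := fun E t g => if h : |E| ≤ e then a ⟨(E, g), h⟩ t else 1

section

variable (e : ℝ) (U : ℍ → ℝ) (fl : ℝ → ℝ → SL(2, ℝ) → SL(2, ℝ)) (Y P : IDG_L e → ℝ → Matrix (Fin 2) (Fin 2) ℂ) (S : IDG_L e → ℝ → ℝ)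
    (a : IDG_L e → ℝ → ℂ)

theorem IDG_fl (E : ℝ) (h : |E| ≤ e) (t : ℝ) (g : SL(2, ℝ)) : (IDG_Dyn e U fl Y P S a).fl E t g = fl E t g := if_pos h
theorem IDG_Y (E : ℝ) (h : |E| ≤ e) (t : ℝ) (g : SL(2, ℝ)) : (IDG_Dyn e U fl Y P S a).Y E t g = Y ⟨(E, g), h⟩ t := dif_pos h
theorem IDG_P (E : ℝ) (h : |E| ≤ e) (t : ℝ) (g : SL(2, ℝ)) : (IDG_Dyn e U fl Y P S a).P E t g = P ⟨(E, g), h⟩ t := dif_pos h
theorem IDG_S (E : ℝ) (h : |E| ≤ e) (t : ℝ) (g : SL(2, ℝ)) : (IDG_Dyn e U fl Y P S a).S E t g = S ⟨(E, g), h⟩ t := dif_pos h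
theorem IDG_a (E : ℝ) (h : |E| ≤ e) (t : ℝ) (g : SL(2, ℝ)) : (IDG_Dyn e U fl Y P S a).a E t g = a ⟨(E, g), h⟩ t := dif_pos h

theorem IDG_nfl (E : ℝ) (h : ¬ |E| ≤ e) (t : ℝ) (g : SL(2, ℝ)) : (IDG_Dyn e U fl Y P S a).fl E t g = g := if_neg h
theorem IDG_nY (E : ℝ) (h : ¬ |E| ≤ e) (t : ℝ) (g : SL(2, ℝ)) : (IDG_Dyn e U fl Y P S a).Y E t g = 1 := dif_neg h
theorem IDG_nP (E : ℝ) (h : ¬ |E| ≤ e) (t : ℝ) (g : SL(2, ℝ)) : (IDG_Dyn e U fl Y P S a).P E t g = Complex.I • 1 := dif_neg h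
theorem IDG_nS (E : ℝ) (h : ¬ |E| ≤ e) (t : ℝ) (g : SL(2, ℝ)) : (IDG_Dyn e U fl Y P S a).S E t g = 0 := dif_neg h
theorem IDG_na (E : ℝ) (h : ¬ |E| ≤ e) (t : ℝ) (g : SL(2, ℝ)) : (IDG_Dyn e U fl Y P S a).a E t g = 1 := dif_neg h

end


theorem IDG_ok (Γ : Subgroup SL(2, ℝ)) (e : ℝ) (B : ℕ → ℝ) (U : ℍ → ℝ) (hP : Pg Γ e B U) (fl : ℝ → ℝ → SL(2, ℝ) → SL(2, ℝ))
    (hflc : Continuous (fun p : ℝ × ℝ × SL(2, ℝ) => fl p.1 p.2.1 p.2.2)) (hfl0 : ∀ E g, fl E 0 g = g)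
    (hfld : ∀ E t g, |E| ≤ e → ∀ i j, HasDerivAt (fun s => (fl E s g).1 i j) (((fl E t g).1 * XX U E (fl E t g)) i j) t)
    (Y P : IDG_L e → ℝ → Matrix (Fin 2) (Fin 2) ℂ) (S : IDG_L e → ℝ → ℝ) (a : IDG_L e → ℝ → ℂ)
    (h0 : ∀ p, Y p 0 = 1 ∧ P p 0 = Complex.I • 1 ∧ S p 0 = 0 ∧ a p 0 = 1)
    (hdY : ∀ p t i j, HasDerivAt (fun s => Y p s i j) ((P p t + ((kap U p.1.1 (fl p.1.1 t p.1.2) : ℝ) : ℂ) • (JJ * Y p t)) i j) t)
    (hdP : ∀ p t i j, HasDerivAt (fun s => P p s i j) ((KK U p.1.1 (fl p.1.1 t p.1.2) * Y p t + ((kap U p.1.1 (fl p.1.1 t p.1.2) : ℝ) : ℂ) • (JJ * P p t)) i j) t)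
    (hdS : ∀ p t, HasDerivAt (S p) ((rho U p.1.1 (fl p.1.1 t p.1.2) ^ 2 + U (fl p.1.1 t p.1.2 • I)) / 2) t)
    (hda : ∀ p t, HasDerivAt (a p) (-(1 / 2) * Matrix.trace (P p t * (Y p t)⁻¹) * a p t) t)
    (hcY : ∀ i j, Continuous (fun q : IDG_L e × ℝ => Y q.1 q.2 i j)) (hcP : ∀ i j, Continuous (fun q : IDG_L e × ℝ => P q.1 q.2 i j))
    (hcS : Continuous (fun q : IDG_L e × ℝ => S q.1 q.2)) (hca : Continuous (fun q : IDG_L e × ℝ => a q.1 q.2)) :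
    OKG Γ e B (IDG_Dyn e U fl Y P S a) where
  pot := hP
  fl0 := by
    intro E g
    by_cases h : |E| ≤ e
    · rw [IDG_fl e U fl Y P S a E h]; exact hfl0 E g
    · rw [IDG_nfl e U fl Y P S a E h]
  out := by
    intro E t g h
    have h' : ¬ |E| ≤ e := not_le.2 h
    exact ⟨IDG_nfl e U fl Y P S a E h' t g, IDG_nY e U fl Y P S a E h' t g, IDG_nP e U fl Y P S a E h' t g, IDG_nS e U fl Y P S a E h' t g,
      IDG_na e U fl Y P S a E h' t g⟩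
  dfl := by
    intro E t g h i j
    have h1 : (fun s => ((IDG_Dyn e U fl Y P S a).fl E s g).1 i j) = fun s => (fl E s g).1 i j := by
      funext s; rw [IDG_fl e U fl Y P S a E h]
    rw [h1, IDG_fl e U fl Y P S a E h]
    exact hfld E t g h i j
  cfl := IDG_on e (fun p t => fl p.1.1 t p.1.2) (IDG_c1 e fl hflc) _ (fun E t g h => IDG_fl e U fl Y P S a E h t g)
  Y0 := by
    intro E g
    by_cases h : |E| ≤ e
    · rw [IDG_Y e U fl Y P S a E h]; exact (h0 _).1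
    · rw [IDG_nY e U fl Y P S a E h]
  P0 := by
    intro E g
    by_cases h : |E| ≤ e
    · rw [IDG_P e U fl Y P S a E h]; exact (h0 _).2.1
    · rw [IDG_nP e U fl Y P S a E h]
  S0 := by
    intro E g
    by_cases h : |E| ≤ e
    · rw [IDG_S e U fl Y P S a E h]; exact (h0 _).2.2.1
    · rw [IDG_nS e U fl Y P S a E h]
  a0 := by
    intro E g
    by_cases h : |E| ≤ e
    · rw [IDG_a e U fl Y P S a E h]; exact (h0 _).2.2.2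
    · rw [IDG_na e U fl Y P S a E h]
  dY := by
    intro E t g h i j
    have h1 : (fun s => (IDG_Dyn e U fl Y P S a).Y E s g i j) = fun s => Y ⟨(E, g), h⟩ s i j := by
      funext s; rw [IDG_Y e U fl Y P S a E h]
    rw [h1, IDG_fl e U fl Y P S a E h, IDG_P e U fl Y P S a E h, IDG_Y e U fl Y P S a E h]
    exact hdY ⟨(E, g), h⟩ t i j
  dP := by
    intro E t g h i j
    have h1 : (fun s => (IDG_Dyn e U fl Y P S a).P E s g i j) = fun s => P ⟨(E, g), h⟩ s i j := by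
      funext s; rw [IDG_P e U fl Y P S a E h]
    rw [h1, IDG_fl e U fl Y P S a E h, IDG_P e U fl Y P S a E h, IDG_Y e U fl Y P S a E h]
    exact hdP ⟨(E, g), h⟩ t i j
  dS := by
    intro E t g h
    have h1 : (fun s => (IDG_Dyn e U fl Y P S a).S E s g) = fun s => S ⟨(E, g), h⟩ s := by
      funext s; rw [IDG_S e U fl Y P S a E h]
    rw [h1, IDG_fl e U fl Y P S a E h]
    exact hdS ⟨(E, g), h⟩ t
  da := by
    intro E t g h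
    have h1 : (fun s => (IDG_Dyn e U fl Y P S a).a E s g) = fun s => a ⟨(E, g), h⟩ s := by
      funext s; rw [IDG_a e U fl Y P S a E h]
    unfold Dyn.M
    rw [h1, IDG_P e U fl Y P S a E h, IDG_Y e U fl Y P S a E h, IDG_a e U fl Y P S a E h]
    exact hda ⟨(E, g), h⟩ t
  cY := fun i j => IDG_on e (fun p t => Y p t i j) (hcY i j) (fun E t g => (IDG_Dyn e U fl Y P S a).Y E t g i j)
    (fun E t g h => by rw [IDG_Y e U fl Y P S a E h])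
  cP := fun i j => IDG_on e (fun p t => P p t i j) (hcP i j) (fun E t g => (IDG_Dyn e U fl Y P S a).P E t g i j)
    (fun E t g h => by rw [IDG_P e U fl Y P S a E h])
  cS := IDG_on e S hcS _ (fun E t g h => IDG_S e U fl Y P S a E h t g)
  ca := IDG_on e a hca _ (fun E t g h => IDG_a e U fl Y P S a E h t g)

/-- Row IDG. -/
theorem IDG_proof (hEXT : EXT_stmt) (hFX4 : FX4_stmt) (hYPE : YPE_stmt) (hDTN : DTN_stmt) (hSAE : SAE_stmt) (hVUG : VUG_stmt) : IDG_stmt := by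
  intro Γ e B U hP
  obtain ⟨C, ρ, κ, hEx⟩ := hEXT Γ e B U hP
  obtain ⟨Φ, fl, -, hflc, hfl0, hfld⟩ := hFX4 e C U ρ κ hEx
  obtain ⟨Y, P, S, a, h0, hdY, hdP, hdS, hda, hcY, hcP, hcS, hca⟩ := IDG_data hYPE hDTN hSAE hVUG Γ e B U hP fl hflc
  exact ⟨IDG_Dyn e U fl Y P S a, rfl, IDG_ok Γ e B U hP fl hflc hfl0 hfld Y P S a h0 hdY hdP hdS hda hcY hcP hcS hca⟩

end

end Pool.Agent.VQ
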